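import Mathlib
import Pool.Agent.helper7.FI2.SpecK

/-!
# Row fi2:FNC2 (MP_baa4d7_al, version 2): the contribution of one normal chain
-/

set_option autoImplicit false

namespace Pool.Agent.FI2

open Pool.Agent.helper58.DC Pool.Agent.DI Pool.Agent.GR Pool.Agent.OB Pool.Agent.DR Pool.Agent.FI

open Classical in
/-- double counting -/
theorem FNC2_dc {G F : Type} [Finite G] (B : Set F) (hB : B.Finite) (R : G → F → Prop) (Gs : Set G)
    (hR : ∀ η ∈ B, ∀ g, R g η → g ∈ Gs) (s : F → ℕ) :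
    ∑ᶠ η ∈ B, {g : G | R g η}.ncard * s η = ∑ᶠ g ∈ Gs, ∑ᶠ η ∈ {η : F | η ∈ B ∧ R g η}, s η := by
  have := Fintype.ofFinite G
  rw [finsum_mem_eq_finite_toFinset_sum _ hB, finsum_mem_eq_finite_toFinset_sum _ (Set.toFinite Gs)]
  have h1 : ∀ g : G, ∑ᶠ η ∈ {η : F | η ∈ B ∧ R g η}, s η = ∑ η ∈ hB.toFinset, if R g η then s η else 0 := by
    intro g
    have hf : {η : F | η ∈ B ∧ R g η}.Finite := hB.subset fun η h => h.1
    rw [finsum_mem_eq_finite_toFinset_sum _ hf, ← Finset.sum_filter]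
    apply Finset.sum_congr _ fun _ _ => rfl
    ext η
    simp
  rw [Finset.sum_congr rfl fun g _ => h1 g, Finset.sum_comm]
  apply Finset.sum_congr rfl
  intro η hη
  rw [Set.Finite.mem_toFinset] at hη
  have h2 : {g : G | R g η}.ncard = ∑ g ∈ (Set.toFinite Gs).toFinset, if R g η then 1 else 0 := by
    rw [← Finset.card_filter, Set.ncard_eq_toFinset_card _ (Set.toFinite _)]
    congr 1
    ext g
    simp only [Set.Finite.mem_toFinset, Set.mem_ofPred_eq, Finset.mem_filter]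
    exact ⟨fun h => ⟨hR η hη g h, h⟩, fun h => h.2⟩
  rw [h2, Finset.sum_mul]
  apply Finset.sum_congr rfl
  intro g _
  by_cases h : R g η
  · simp [h]
  · simp [h]

/-- The characters of `C_G(P)` over `χ` and those of `C_G(P ^ g)` over `θ`. -/
theorem FNC2_bij (hFEQ : FEQ_stmt) (hFSI : FSI_stmt) (p : ℕ) (M : Ideal (integralClosure ℤ ℂ)) (hS : Setup p M)
    (G : Type) [Group G] [Finite G] (D : Subgroup G) (x : G) (θ χ : G → ℂ) (hl : Loc p M D x θ χ) (P : Subgroup G)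
    (g : G) (hg : cjS g P ≤ D) :
    Set.BijOn (cjF g) {η : G → ℂ | η ∈ Blk M χ (cz P) ∧ (cjS g P ≤ D ∧ SB M (cz (cjS g P)) θ (cjF g η))}
      (Bl M (cz (cjS g P)) θ) := by
  have hcz : cz (cjS g P) = cjS g (cz P) := (hFEQ G M g g P P P χ χ χ).2.1.1
  have hinv : ∀ ψ : G → ℂ, cjF g⁻¹ (cjF g ψ) = ψ := by
    intro ψ
    rw [(hFEQ G M g⁻¹ g P P P χ ψ χ).1.2.1, inv_mul_cancel]
    exact (hFEQ G M g⁻¹ g P P P χ ψ χ).1.2.2.2
  have hinv' : ∀ ψ : G → ℂ, cjF g (cjF g⁻¹ ψ) = ψ := by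
    intro ψ
    rw [(hFEQ G M g g⁻¹ P P P χ ψ χ).1.2.1, mul_inv_cancel]
    exact (hFEQ G M g⁻¹ g P P P χ ψ χ).1.2.2.2
  refine ⟨?_, ?_, ?_⟩
  · rintro η ⟨hη, _, hη'⟩
    refine ⟨?_, hη'.symm⟩
    rw [hcz]
    exact (hFEQ G M g g P P (cz P) χ η χ).2.2.2.1.1 hη.1
  · intro η _ η' _ h
    have h1 : cjF g⁻¹ (cjF g η) = cjF g⁻¹ (cjF g η') := congrArg _ h
    rwa [hinv, hinv] at h1
  · rintro ψ ⟨hψ, hψ'⟩
    refine ⟨cjF g⁻¹ ψ, ⟨⟨?_, ?_⟩, hg, ?_⟩, hinv' ψ⟩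
    · apply (hFEQ G M g g P P (cz P) χ (cjF g⁻¹ ψ) χ).2.2.2.1.2
      rw [hinv', ← hcz]
      exact hψ
    · have h1 := ((hFEQ G M g g P P (cz P) χ (cjF g⁻¹ ψ) χ).2.2.2.2.2.1 hl.lo.rt.chi).2
      rw [hinv'] at h1
      rw [← h1]
      have h2 := (hFSI p M hS G (cz (cjS g P)) (cz (cjS g P)) ψ θ).2 hψ.1 (fun y hy => ?_) hψ' χ
      · rw [h2]
        exact hl.lo.rt.ind
      · apply hl.lo.rt.th.1
        intro hy'
        exact hy (Subgroup.centralizer_le hg hy')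
    · rw [hinv']
      exact hψ'.symm

theorem FNC2_nP {G : Type} [Group G] (g : G) (K S : Subgroup G) : nP (cjS g K) (cjS g S) = nP K S := by
  have hm : ∀ (H : Subgroup G) (y : G), y ∈ cjS g H ↔ g⁻¹ * y * g ∈ H := by
    intro H y
    constructor
    · rintro ⟨z, hz, rfl⟩
      have h1 : g⁻¹ * (g * z * g⁻¹) * g = z := by group
      change g⁻¹ * (g * z * g⁻¹) * g ∈ H
      rw [h1]
      exact hz
    · intro h
      refine ⟨g⁻¹ * y * g, h, ?_⟩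
      change g * (g⁻¹ * y * g) * g⁻¹ = y
      group
  unfold nP
  symm
  refine Set.ncard_congr (fun x _ => (g * x.1 * g⁻¹, g * x.2 * g⁻¹)) ?_ ?_ ?_
  · rintro ⟨a, b⟩ ⟨h1, h2, h3⟩
    refine ⟨(hm _ _).mpr ?_, (hm _ _).mpr ?_, (hm _ _).mpr ?_⟩
    · have : g⁻¹ * (g * a * g⁻¹) * g = a := by group
      change g⁻¹ * (g * a * g⁻¹) * g ∈ S
      rw [this]
      exact h1
    · have : g⁻¹ * (g * b * g⁻¹) * g = b := by group
      change g⁻¹ * (g * b * g⁻¹) * g ∈ S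
      rw [this]
      exact h2
    · have : g⁻¹ * ((g * a * g⁻¹) * (g * b * g⁻¹) * (g * a * g⁻¹)⁻¹ * (g * b * g⁻¹)⁻¹) * g = a * b * a⁻¹ * b⁻¹ := by group
      change g⁻¹ * ((g * a * g⁻¹) * (g * b * g⁻¹) * (g * a * g⁻¹)⁻¹ * (g * b * g⁻¹)⁻¹) * g ∈ K
      rw [this]
      exact h3
  · rintro ⟨a, b⟩ ⟨c, d⟩ _ _ h
    have h1 := congrArg Prod.fst h
    have h2 := congrArg Prod.snd h
    have e1 : a = c := mul_left_cancel (mul_right_cancel h1)
    have e2 : b = d := mul_left_cancel (mul_right_cancel h2)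
    rw [e1, e2]
  · rintro ⟨a, b⟩ ⟨h1, h2, h3⟩
    refine ⟨(g⁻¹ * a * g, g⁻¹ * b * g), ⟨(hm _ _).mp h1, (hm _ _).mp h2, ?_⟩, ?_⟩
    · have h4 := (hm _ _).mp h3
      have : g⁻¹ * (a * b * a⁻¹ * b⁻¹) * g = (g⁻¹ * a * g) * (g⁻¹ * b * g) * (g⁻¹ * a * g)⁻¹ * (g⁻¹ * b * g)⁻¹ := by group
      change (g⁻¹ * a * g) * (g⁻¹ * b * g) * (g⁻¹ * a * g)⁻¹ * (g⁻¹ * b * g)⁻¹ ∈ K
      rw [← this]
      exact h4
    · change (g * (g⁻¹ * a * g) * g⁻¹, g * (g⁻¹ * b * g) * g⁻¹) = (a, b)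
      have e1 : g * (g⁻¹ * a * g) * g⁻¹ = a := by group
      have e2 : g * (g⁻¹ * b * g) * g⁻¹ = b := by group
      rw [e1, e2]

theorem FNC2 (hFMX : FMX_stmt) (hF122 : F122_stmt) (hFCQ2 : FCQ2_stmt) (hFNG : FNG_stmt) (hFSQ2 : FSQ2_stmt) (hFEQ : FEQ_stmt)
    (hFSI : FSI_stmt) (hIF : IF_stmt) : FNC2_stmt := by
  intro p M hS G _ _ D x θ χ hl C hC hne
  obtain ⟨P, hPC, hPne, hPp, hPmax, hPN, hNP, hzN⟩ := hFMX G p C hC hne
  set N := nrm C with hN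
  set T := TT M D θ with hT
  have h12 := hF122 p M hS G P N hPp hPN hzN hNP χ hl.lo.rt.chi
    (fun ψ hψ => (hFCQ2 p M hS G D x θ χ hl P hPp hPne N hzN hNP ψ hψ).1)
  refine ⟨?_, ?_⟩
  · have hB : (Blk M χ (cz P)).Finite := (hIF G (cz P)).1.subset fun ψ h => h.1
    have hGs : {g : G | ∀ Q ∈ C, cjS g Q ≤ D} = {g : G | cjS g P ≤ D} := by
      ext g
      constructor
      · intro h
        exact h P hPC
      · intro h Q hQ
        exact le_trans (Subgroup.map_mono (hPmax Q hQ)) h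
    rw [hGs]
    have hK : 0 < Nat.card (cz P) := Nat.card_pos
    have hC0 : 0 < Nat.card (cz D) := Nat.card_pos
    -- the double counting
    have e1 : Nat.card (cz D) * ∑ᶠ η ∈ Blk M χ (cz P),
          {g : G | cjS g P ≤ D ∧ SB M (cz (cjS g P)) θ (cjF g η)}.ncard * nP (cz P) (stF N η) =
        Nat.card T * Nat.card (cz P) * ∑ᶠ ψ ∈ Blk M χ (cz P), nP (cz P) (stF N ψ) := by
      rw [finsum_mem_eq_finite_toFinset_sum _ hB, finsum_mem_eq_finite_toFinset_sum _ hB,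
        Finset.mul_sum, Finset.mul_sum]
      apply Finset.sum_congr rfl
      intro η hη
      rw [Set.Finite.mem_toFinset] at hη
      rw [← hFNG p M hS G D x θ χ hl.lo P hPp hPne η hη]
      ring
    rw [FNC2_dc _ hB (fun g η => cjS g P ≤ D ∧ SB M (cz (cjS g P)) θ (cjF g η)) {g : G | cjS g P ≤ D}
      (fun η _ g h => h.1)] at e1
    have e2 : ∀ g ∈ {g : G | cjS g P ≤ D}, Nat.card (cz D) ^ 2 *
        ∑ᶠ η ∈ {η : G → ℂ | η ∈ Blk M χ (cz P) ∧ (cjS g P ≤ D ∧ SB M (cz (cjS g P)) θ (cjF g η))}, nP (cz P) (stF N η) =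
        Nat.card (cz P) ^ 2 * (Nat.card (cz D) ^ 2 * (Nat.card D - 1) + nP (cz D) (T ⊓ cjS g N)) := by
      intro g hg
      have hg' : cjS g P ≤ D := hg
      have hbot : cjS g P ≠ ⊥ := fun h => hPne ((hFEQ G M g g P P P χ χ χ).2.1.2.2.2.2.1.1 h)
      have hcz : cz (cjS g P) = cjS g (cz P) := (hFEQ G M g g P P P χ χ χ).2.1.1
      have hnz : nz (cjS g P) = cjS g (nz P) := (hFEQ G M g g P P P χ χ χ).2.1.2.1
      have h3 := hFSQ2 p M hS G D x θ χ hl (cjS g P) hg' hbot (cjS g N)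
        (by rw [hcz]; exact Subgroup.map_mono hzN) (by rw [hnz]; exact Subgroup.map_mono hNP)
      have h4 : Nat.card (cz (cjS g P)) = Nat.card (cz P) := by
        rw [hcz]
        exact (hFEQ G M g g (cz P) P P χ χ χ).2.1.2.2.2.2.2
      rw [h4] at h3
      rw [← h3]
      congr 1
      apply finsum_mem_eq_of_bijOn (cjF g) (FNC2_bij hFEQ hFSI p M hS G D x θ χ hl P g hg')
      intro η _
      have h8 := (hFEQ G M g g P P N χ η χ).2.2.2.2.2.2.2.1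
      rw [hcz, h8, FNC2_nP]
    have e3 : Nat.card (cz D) ^ 2 * ∑ᶠ g ∈ {g : G | cjS g P ≤ D},
        ∑ᶠ η ∈ {η : G → ℂ | η ∈ Blk M χ (cz P) ∧ (cjS g P ≤ D ∧ SB M (cz (cjS g P)) θ (cjF g η))}, nP (cz P) (stF N η) =
        Nat.card (cz P) ^ 2 * ∑ᶠ g ∈ {g : G | cjS g P ≤ D},
          (Nat.card (cz D) ^ 2 * (Nat.card D - 1) + nP (cz D) (T ⊓ cjS g N)) := by
      have := Fintype.ofFinite G
      rw [finsum_mem_eq_finite_toFinset_sum _ (Set.toFinite {g : G | cjS g P ≤ D}),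
        finsum_mem_eq_finite_toFinset_sum _ (Set.toFinite {g : G | cjS g P ≤ D}), Finset.mul_sum, Finset.mul_sum]
      apply Finset.sum_congr rfl
      intro g hg
      rw [Set.Finite.mem_toFinset] at hg
      exact e2 g hg
    have h5 := h12.1
    rw [← h5] at e1
    set A := ∑ᶠ g ∈ {g : G | cjS g P ≤ D},
        ∑ᶠ η ∈ {η : G → ℂ | η ∈ Blk M χ (cz P) ∧ (cjS g P ≤ D ∧ SB M (cz (cjS g P)) θ (cjF g η))}, nP (cz P) (stF N η)
      with hA
    set S := ∑ᶠ g ∈ {g : G | cjS g P ≤ D}, (Nat.card (cz D) ^ 2 * (Nat.card D - 1) + nP (cz D) (T ⊓ cjS g N)) with hSd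
    have e4 : (Nat.card (cz P) ^ 2 * Nat.card (cz D)) *
        (Nat.card (cz D) * (Nat.card T * (Nat.card N * (Blk M χ N).ncard))) =
        (Nat.card (cz P) ^ 2 * Nat.card (cz D)) * S := by
      have h6 : Nat.card (cz D) * (Nat.card (cz D) ^ 2 * A) = Nat.card (cz D) * (Nat.card (cz P) ^ 2 * S) := by rw [e3]
      have h7 : Nat.card (cz D) ^ 2 * (Nat.card (cz D) * A) =
          Nat.card (cz D) ^ 2 * (Nat.card T * Nat.card (cz P) * (Nat.card (cz P) * (Nat.card N * (Blk M χ N).ncard))) := by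
        rw [e1]
      calc _ = Nat.card (cz D) ^ 2 * (Nat.card T * Nat.card (cz P) * (Nat.card (cz P) * (Nat.card N * (Blk M χ N).ncard))) := by
            ring
        _ = Nat.card (cz D) ^ 2 * (Nat.card (cz D) * A) := h7.symm
        _ = Nat.card (cz D) * (Nat.card (cz D) ^ 2 * A) := by ring
        _ = Nat.card (cz D) * (Nat.card (cz P) ^ 2 * S) := h6
        _ = _ := by ring
    exact Nat.eq_of_mul_eq_mul_left (by positivity) e4
  · intro hlt φ hφ a ha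
    refine h12.2 a (fun ψ hψ => ?_) φ hφ
    have h1 := hFCQ2 p M hS G D x θ χ hl P hPp hPne N hzN hNP ψ hψ
    exact ⟨h1.2.1, lt_of_le_of_lt h1.2.2.1 hlt, h1.2.2.2 a ha⟩

end Pool.Agent.FI2
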